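import Pool.Agent.Helper99.BK.Stmts

/-!
# The discriminant of a cubic field
-/

set_option autoImplicit false

namespace Pool.Helper99.BK

open NumberField

theorem disc_ne (K : Type) [Field K] [NumberField K] (β : K) (x y : ℤ)
    (hβ : β ^ 3 - 3 * (x : K) * β + 2 * (y : K) = 0) (hq : ∀ q : ℚ, β ≠ algebraMap ℚ K q) :
    x ^ 3 - y ^ 2 ≠ 0 := by
  intro h
  have h' : (x : K) ^ 3 = (y : K) ^ 2 := by
    have : x ^ 3 = y ^ 2 := by omega
    exact_mod_cast this
  by_cases hx : x = 0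
  · subst hx
    have hy : y = 0 := by
      have : y ^ 2 = 0 := by omega
      exact pow_eq_zero_iff (two_ne_zero) |>.1 this
    subst hy
    apply hq 0
    rw [map_zero]
    have : β ^ 3 = 0 := by
      push_cast at hβ
      linear_combination hβ
    exact pow_eq_zero_iff (three_ne_zero) |>.1 this
  · have hxK : (x : K) ≠ 0 := by exact_mod_cast hx
    set t : K := (y : K) / x with ht
    have h1 : t * x = y := div_mul_cancel₀ _ hxK
    have h2 : t ^ 2 = x := by
      have : t ^ 2 * (x : K) ^ 2 = x * (x : K) ^ 2 := by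
        rw [← mul_pow, h1, ← h']
        ring
      exact mul_right_cancel₀ (pow_ne_zero 2 hxK) this
    have h3 : (β - t) * ((β - t) * (β + 2 * t)) = 0 := by
      linear_combination hβ - 3 * β * h2 + 2 * h1 + 2 * t * h2
    have ht' : t = algebraMap ℚ K ((y : ℚ) / x) := by
      rw [map_div₀, map_intCast, map_intCast]
    rcases mul_eq_zero.1 h3 with h4 | h4
    · exact hq _ ((sub_eq_zero.1 h4).trans ht')
    rcases mul_eq_zero.1 h4 with h4 | h4
    · exact hq _ ((sub_eq_zero.1 h4).trans ht')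
    · apply hq (-2 * ((y : ℚ) / x))
      rw [map_mul, ← ht', map_neg, map_ofNat]
      linear_combination h4

/-- The discriminant. -/
theorem st_DISC : ST_DISC := by
  intro K _ _ h3 β x y hβ hq
  have hint : IsIntegral ℤ β := by
    refine ⟨Polynomial.X ^ 3 - Polynomial.C (3 * x) * Polynomial.X + Polynomial.C (2 * y), ?_, ?_⟩
    · monicity!
    · simp only [Polynomial.eval₂_add, Polynomial.eval₂_sub, Polynomial.eval₂_mul,
        Polynomial.eval₂_pow, Polynomial.eval₂_X, Polynomial.eval₂_C]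
      rw [eq_intCast, eq_intCast]
      push_cast
      exact hβ
  -- the powers of β
  have hdeg : (minpoly ℚ β).natDegree = 3 := by
    have h1 : (minpoly ℚ β).natDegree ∣ 3 := by
      rw [← h3]
      exact minpoly.degree_dvd (Algebra.IsIntegral.isIntegral β)
    rcases (Nat.dvd_prime Nat.prime_three).1 h1 with h2 | h2
    · obtain ⟨q, hq'⟩ := minpoly.natDegree_eq_one_iff.1 h2
      exact absurd hq'.symm (hq q)
    · exact h2
  have hli := linearIndependent_pow (K := ℚ) β
  rw [hdeg] at hli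
  have hcard : Fintype.card (Fin 3) = Module.finrank ℚ K := by rw [h3]; rfl
  let B : Module.Basis (Fin 3) ℚ K := basisOfLinearIndependentOfCardEqFinrank hli hcard
  have hB : ∀ i, B i = β ^ (i : ℕ) := fun i => by
    simp [B]
  have hβ3 : β ^ 3 = (3 * x : ℚ) • β - (2 * y : ℚ) • (1 : K) := by
    rw [Algebra.smul_def, Algebra.smul_def]
    simp only [map_mul, map_ofNat, map_intCast, mul_one]
    linear_combination hβ
  -- the matrix of multiplication by β
  let M : Matrix (Fin 3) (Fin 3) ℚ := !![0, 0, -(2 * y); 1, 0, 3 * x; 0, 1, 0]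
  have hM : Algebra.leftMulMatrix B β = M := by
    refine Matrix.ext fun i j => ?_
    rw [Algebra.leftMulMatrix_eq_repr_mul]
    have h0 : β * B 0 = B 1 := by rw [hB, hB]; simp
    have h1 : β * B 1 = B 2 := by rw [hB, hB]; simp [pow_two]
    have h2 : β * B 2 = (3 * x : ℚ) • B 1 - (2 * y : ℚ) • B 0 := by
      rw [hB, hB, hB]
      have : β * β ^ ((2 : Fin 3) : ℕ) = β ^ 3 := by
        show β * β ^ 2 = β ^ 3
        ring
      rw [this, hβ3]
      simp
    fin_cases j
    · show (B.repr (β * B 0)) i = M i 0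
      rw [h0]
      fin_cases i <;> simp [M, Finsupp.single_apply]
    · show (B.repr (β * B 1)) i = M i 1
      rw [h1]
      fin_cases i <;> simp [M, Finsupp.single_apply]
    · show (B.repr (β * B 2)) i = M i 2
      rw [h2]
      fin_cases i <;> simp [M, Finsupp.single_apply]
  have htr : ∀ n : ℕ, Algebra.trace ℚ K (β ^ n) = Matrix.trace (M ^ n) := by
    intro n
    rw [Algebra.trace_eq_matrix_trace B, map_pow, hM]
  have t0 : Algebra.trace ℚ K (β ^ 0) = 3 := by
    rw [htr]; simp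
  have t1 : Algebra.trace ℚ K (β ^ 1) = 0 := by
    rw [htr]; simp [M, Matrix.trace_fin_three]
  have t2 : Algebra.trace ℚ K (β ^ 2) = 6 * x := by
    rw [htr]; simp [M, Matrix.trace_fin_three, pow_succ, Matrix.mul_apply, Fin.sum_univ_three]
    ring
  have t3 : Algebra.trace ℚ K (β ^ 3) = -(6 * y) := by
    rw [htr]; simp [M, Matrix.trace_fin_three, pow_succ, Matrix.mul_apply, Fin.sum_univ_three]
    ring
  have t4 : Algebra.trace ℚ K (β ^ 4) = 18 * x ^ 2 := by
    rw [htr]; simp [M, Matrix.trace_fin_three, pow_succ, Matrix.mul_apply, Fin.sum_univ_three]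
    ring
  -- integral version
  let b : 𝓞 K := ⟨β, hint⟩
  have hb : ∀ n : ℕ, ((b ^ n : 𝓞 K) : K) = β ^ n := fun n => by
    rfl
  have hZ : ∀ n : ℕ, ((Algebra.trace ℤ (𝓞 K) (b ^ n) : ℤ) : ℚ) = Algebra.trace ℚ K (β ^ n) := by
    intro n
    rw [Algebra.coe_trace_int, hb]
  have u0 : Algebra.trace ℤ (𝓞 K) (b ^ 0) = 3 := by
    have := hZ 0; rw [t0] at this; exact_mod_cast this
  have u1 : Algebra.trace ℤ (𝓞 K) (b ^ 1) = 0 := by
    have := hZ 1; rw [t1] at this; exact_mod_cast this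
  have u2 : Algebra.trace ℤ (𝓞 K) (b ^ 2) = 6 * x := by
    have := hZ 2; rw [t2] at this; exact_mod_cast this
  have u3 : Algebra.trace ℤ (𝓞 K) (b ^ 3) = -(6 * y) := by
    have := hZ 3; rw [t3] at this; exact_mod_cast this
  have u4 : Algebra.trace ℤ (𝓞 K) (b ^ 4) = 18 * x ^ 2 := by
    have := hZ 4; rw [t4] at this; exact_mod_cast this
  let v : Fin 3 → 𝓞 K := fun i => b ^ (i : ℕ)
  have hdv : Algebra.discr ℤ v = 108 * (x ^ 3 - y ^ 2) := by
    rw [Algebra.discr_def]
    have e : ∀ i j : Fin 3, Algebra.traceMatrix ℤ v i j = Algebra.trace ℤ (𝓞 K) (b ^ ((i : ℕ) + j)) := by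
      intro i j
      rw [Algebra.traceMatrix_apply, Algebra.traceForm_apply, pow_add]
    rw [Matrix.det_fin_three]
    simp only [e]
    show Algebra.trace ℤ (𝓞 K) (b ^ 0) * Algebra.trace ℤ (𝓞 K) (b ^ 2) * Algebra.trace ℤ (𝓞 K) (b ^ 4) -
      Algebra.trace ℤ (𝓞 K) (b ^ 0) * Algebra.trace ℤ (𝓞 K) (b ^ 3) * Algebra.trace ℤ (𝓞 K) (b ^ 3) -
      Algebra.trace ℤ (𝓞 K) (b ^ 1) * Algebra.trace ℤ (𝓞 K) (b ^ 1) * Algebra.trace ℤ (𝓞 K) (b ^ 4) +
      Algebra.trace ℤ (𝓞 K) (b ^ 1) * Algebra.trace ℤ (𝓞 K) (b ^ 3) * Algebra.trace ℤ (𝓞 K) (b ^ 2) +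
      Algebra.trace ℤ (𝓞 K) (b ^ 2) * Algebra.trace ℤ (𝓞 K) (b ^ 1) * Algebra.trace ℤ (𝓞 K) (b ^ 3) -
      Algebra.trace ℤ (𝓞 K) (b ^ 2) * Algebra.trace ℤ (𝓞 K) (b ^ 2) * Algebra.trace ℤ (𝓞 K) (b ^ 2) =
      108 * (x ^ 3 - y ^ 2)
    rw [u0, u1, u2, u3, u4]
    ring
  -- comparison with the integral basis
  have hcard2 : Fintype.card (Module.Free.ChooseBasisIndex ℤ (𝓞 K)) = 3 := by
    rw [← Module.finrank_eq_card_chooseBasisIndex, RingOfIntegers.rank, h3]
  let e : Module.Free.ChooseBasisIndex ℤ (𝓞 K) ≃ Fin 3 := Fintype.equivFinOfCardEq hcard2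
  let b' : Module.Basis (Fin 3) ℤ (𝓞 K) := (RingOfIntegers.basis K).reindex e
  let P : Matrix (Fin 3) (Fin 3) ℤ := Matrix.of fun i j => b'.repr (v i) j
  have hP : v = Matrix.mulVec (P.map (algebraMap ℤ (𝓞 K))) b' := by
    funext i
    have h1 := b'.sum_repr (v i)
    rw [← h1]
    simp only [Matrix.mulVec, dotProduct, Matrix.map_apply, P, Matrix.of_apply]
    refine Finset.sum_congr rfl fun j _ => ?_
    rw [Algebra.smul_def]
  have hdP : Algebra.discr ℤ v = P.det ^ 2 * NumberField.discr K := by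
    rw [← NumberField.discr_eq_discr K b', ← Algebra.discr_of_matrix_mulVec, ← hP]
  have hne := disc_ne K β x y hβ hq
  rw [hdv] at hdP
  have hdet : P.det ^ 2 ≠ 0 := by
    intro h
    rw [h, zero_mul] at hdP
    apply hne
    omega
  have h1 : 1 ≤ P.det ^ 2 := by
    have := sq_nonneg P.det
    omega
  have h2 : |NumberField.discr K| ≤ 108 * |x ^ 3 - y ^ 2| := by
    have h4 : |108 * (x ^ 3 - y ^ 2)| = P.det ^ 2 * |NumberField.discr K| := by
      rw [hdP, abs_mul, abs_of_nonneg (sq_nonneg P.det)]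
    rw [abs_mul, abs_of_nonneg (by norm_num : (0 : ℤ) ≤ 108)] at h4
    rw [h4]
    nlinarith [abs_nonneg (NumberField.discr K)]
  exact_mod_cast h2

end Pool.Helper99.BK
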