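import Pool.Agent.Helper99.BK.Stmts

/-!
# Counting ideals of bounded norm
-/

set_option autoImplicit false

namespace Pool.Helper99.BK

open NumberField

/-- Counting ideals. -/
theorem st_IDC (h1 : ST_DV3) (h2 : ST_TAU) : ST_IDC := by
  intro K _ _ h3 t ht
  classical
  have hfin : ∀ n : ℕ, {J : Ideal (𝓞 K) | Ideal.absNorm J = n}.Finite := fun n =>
    Ideal.finite_setOfPred_absNorm_eq n
  have hsub : ID K t ⊆ ↑((Finset.Icc 1 ⌊t⌋₊).biUnion fun n => (hfin n).toFinset) := by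
    rintro J ⟨hJ, hJt⟩
    rw [Finset.mem_coe, Finset.mem_biUnion]
    refine ⟨Ideal.absNorm J, ?_, ?_⟩
    · rw [Finset.mem_Icc]
      refine ⟨?_, Nat.le_floor hJt⟩
      have : Ideal.absNorm J ≠ 0 := fun h => hJ (Ideal.absNorm_eq_zero_iff.1 h)
      omega
    · rw [Set.Finite.mem_toFinset]
      rfl
  have hle : (ID K t).ncard ≤ ∑ n ∈ Finset.Icc 1 ⌊t⌋₊, n.divisors.card ^ 3 := by
    calc (ID K t).ncard ≤ (↑((Finset.Icc 1 ⌊t⌋₊).biUnion fun n => (hfin n).toFinset) :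
          Set (Ideal (𝓞 K))).ncard := Set.ncard_le_ncard hsub (Finset.finite_toSet _)
      _ = ((Finset.Icc 1 ⌊t⌋₊).biUnion fun n => (hfin n).toFinset).card := Set.ncard_coe_finset _
      _ ≤ ∑ n ∈ Finset.Icc 1 ⌊t⌋₊, ((hfin n).toFinset).card := Finset.card_biUnion_le
      _ ≤ ∑ n ∈ Finset.Icc 1 ⌊t⌋₊, n.divisors.card ^ 3 := by
        refine Finset.sum_le_sum fun n hn => ?_
        rw [← Set.ncard_eq_toFinset_card _ (hfin n)]
        exact h1 K h3 n (by have := (Finset.mem_Icc.1 hn).1; omega)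
  calc ((ID K t).ncard : ℝ) ≤ ((∑ n ∈ Finset.Icc 1 ⌊t⌋₊, n.divisors.card ^ 3 : ℕ) : ℝ) := by
        exact_mod_cast hle
    _ = ∑ n ∈ Finset.Icc 1 ⌊t⌋₊, (n.divisors.card : ℝ) ^ 3 := by push_cast; rfl
    _ ≤ t * (1 + Real.log t) ^ 8 := h2 t ht

end Pool.Helper99.BK
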